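import Pool.Agent.Results.MP_5d01ce_co.Disproof

set_option autoImplicit false

/-!
# Uniform minors of relaxed binary matroids
-/

namespace Pool.Agent.Y458.AC

open Set
open Pool.Agent.Results.MP_5d01ce_co.Disproof

variable {α : Type*}

/-- The special sets of the configurations of a minor. -/
lemma special_data {M N : Matroid α} {H K : Set α}
    (hQ : TwoSpecial M H K) (hN : N.IsMinor M) : ∃ I : Set α,
      (∀ T, N.Indep T → Disjoint T I) ∧ ∀ A a b c d, Cfg N A a b c d →
      ∃ p q, (p = a ∨ p = b ∨ p = c ∨ p = d) ∧ (q = a ∨ q = b ∨ q = c ∨ q = d) ∧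
        N.Indep (A ∪ {p, q}) ∧ (A ∪ {p, q} ∪ I = H ∨ A ∪ {p, q} ∪ I = K) := by
  obtain ⟨C, D, hCE, hDE, hCD, rfl⟩ := hN.exists_eq_contract_delete_disjoint
  obtain ⟨I, hI⟩ := M.exists_isBasis C hCE
  -- independence in the minor
  have key : ∀ S, S ⊆ (M.contract C |>.delete D).E →
      ((M.contract C |>.delete D).Indep S ↔ M.Indep (S ∪ I)) := by
    intro S hS
    rw [Matroid.delete_indep_iff, hI.contract_indep_iff]
    have hS' : S ⊆ (M.E \ C) \ D := hS
    constructor
    · rintro ⟨⟨h, _⟩, _⟩; exact h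
    · intro h
      refine ⟨⟨h, ?_⟩, ?_⟩
      · exact Set.disjoint_left.mpr (fun x hxC hxS => (hS' hxS).1.2 hxC)
      · exact Set.disjoint_left.mpr (fun x hxS hxD => (hS' hxS).2 hxD)
  have hIC := hI.subset
  have hIE : I ⊆ M.E := hIC.trans hCE
  have hNE : ∀ x, x ∈ (M.contract C |>.delete D).E → x ∈ M.E ∧ x ∉ I := by
    intro x hx
    have hx' : x ∈ (M.E \ C) \ D := hx
    exact ⟨hx'.1.1, fun h => hx'.1.2 (hIC h)⟩
  -- transfer configurations
  have trans : ∀ A a b c d, Cfg (M.contract C |>.delete D) A a b c d → Cfg M (A ∪ I) a b c d := by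
    rintro A a b c d ⟨hA, ha, hb, hc, hd, haA, hbA, hcA, hdA, hab, hac, hbc, had, hbd, hcd, i1,
      i2, i3, i4, i5, i6, j1, j2⟩
    have s2 : ∀ x y, A ∪ I ∪ {x, y} = A ∪ {x, y} ∪ I := fun x y => by
      rw [union_assoc, union_comm I, ← union_assoc]
    have s3 : ∀ x y z, A ∪ I ∪ {x, y, z} = A ∪ {x, y, z} ∪ I := fun x y z => by
      rw [union_assoc, union_comm I, ← union_assoc]
    have t2 : ∀ x ∈ (M.contract C |>.delete D).E, ∀ y ∈ (M.contract C |>.delete D).E,
        A ∪ {x, y} ⊆ (M.contract C |>.delete D).E := by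
      intro x hx y hy
      exact union_subset hA (by rintro z (rfl | rfl) <;> assumption)
    have t3 : ∀ x ∈ (M.contract C |>.delete D).E, ∀ y ∈ (M.contract C |>.delete D).E,
        ∀ z ∈ (M.contract C |>.delete D).E,
        A ∪ {x, y, z} ⊆ (M.contract C |>.delete D).E := by
      intro x hx y hy z hz
      exact union_subset hA (by rintro w (rfl | rfl | rfl) <;> assumption)
    refine ⟨union_subset (fun x hx => (hNE x (hA hx)).1) hIE, (hNE a ha).1, (hNE b hb).1,
      (hNE c hc).1, (hNE d hd).1, ?_, ?_, ?_, ?_, hab, hac, hbc, had, hbd, hcd, ?_, ?_, ?_, ?_,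
      ?_, ?_, ?_, ?_⟩
    · rintro (h | h); exacts [haA h, (hNE a ha).2 h]
    · rintro (h | h); exacts [hbA h, (hNE b hb).2 h]
    · rintro (h | h); exacts [hcA h, (hNE c hc).2 h]
    · rintro (h | h); exacts [hdA h, (hNE d hd).2 h]
    · rw [s2]; exact (key _ (t2 a ha b hb)).mp i1
    · rw [s2]; exact (key _ (t2 a ha c hc)).mp i2
    · rw [s2]; exact (key _ (t2 b hb c hc)).mp i3
    · rw [s2]; exact (key _ (t2 a ha d hd)).mp i4
    · rw [s2]; exact (key _ (t2 b hb d hd)).mp i5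
    · rw [s2]; exact (key _ (t2 c hc d hd)).mp i6
    · rw [s3]; exact fun h => j1 ((key _ (t3 a ha b hb c hc)).mpr h)
    · rw [s3]; exact fun h => j2 ((key _ (t3 a ha b hb d hd)).mpr h)
  have hmemE : ∀ A a b c d, Cfg (M.contract C |>.delete D) A a b c d → ∀ x,
      (x = a ∨ x = b ∨ x = c ∨ x = d) → x ∈ (M.contract C |>.delete D).E := by
    intro A a b c d hC' x hx
    obtain ⟨_, ha, hb, hc, hd, _⟩ := hC'
    rcases hx with rfl | rfl | rfl | rfl <;> assumption
  have hsub : ∀ A a b c d, Cfg (M.contract C |>.delete D) A a b c d → ∀ p q,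
      (p = a ∨ p = b ∨ p = c ∨ p = d) → (q = a ∨ q = b ∨ q = c ∨ q = d) →
      A ∪ {p, q} ⊆ (M.contract C |>.delete D).E := by
    intro A a b c d hC' p q hp hq
    refine union_subset hC'.1 ?_
    rintro x (rfl | h)
    · exact hmemE _ _ _ _ _ hC' _ hp
    · rw [mem_singleton_iff] at h
      subst h
      exact hmemE _ _ _ _ _ hC' _ hq
  refine ⟨I, fun T hT => ?_, fun A a b c d hc => ?_⟩
  · exact Set.disjoint_left.mpr fun x hx => (hNE x (hT.subset_ground hx)).2
  · obtain ⟨p, q, hp, hq, hpq, hS⟩ := hQ _ _ _ _ _ (trans _ _ _ _ _ hc)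
    have e : A ∪ I ∪ {p, q} = A ∪ {p, q} ∪ I := by
      rw [union_assoc, union_comm I, ← union_assoc]
    rw [e] at hpq hS
    exact ⟨p, q, hp, hq, (key _ (hsub _ _ _ _ _ hc p q hp hq)).mpr hpq, hS⟩

lemma sdiff_of_disj {T I : Set α} (h : Disjoint T I) : (T ∪ I) \ I = T := by
  ext x
  constructor
  · rintro ⟨hx | hx, hxI⟩
    · exact hx
    · exact absurd hx hxI
  · exact fun hx => ⟨Or.inl hx, Set.disjoint_left.mp h hx⟩

/-- In a minor all configurations use one of two special sets. -/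
lemma two_special {M N : Matroid α} {H K : Set α}
    (hQ : TwoSpecial M H K) (hN : N.IsMinor M) : ∃ S S' : Set α, ∀ A a b c d, Cfg N A a b c d →
      ∃ p q, (p = a ∨ p = b ∨ p = c ∨ p = d) ∧ (q = a ∨ q = b ∨ q = c ∨ q = d) ∧
        N.Indep (A ∪ {p, q}) ∧ (A ∪ {p, q} = S ∨ A ∪ {p, q} = S') := by
  obtain ⟨I, hI, hgen⟩ := special_data hQ hN
  refine ⟨H \ I, K \ I, fun A a b c d hc => ?_⟩
  obtain ⟨p, q, hp, hq, h1, h2⟩ := hgen _ _ _ _ _ hc
  refine ⟨p, q, hp, hq, h1, ?_⟩
  rcases h2 with h | h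
  · left; rw [← h, sdiff_of_disj (hI _ h1)]
  · right; rw [← h, sdiff_of_disj (hI _ h1)]

/-- In a minor of smaller rank all configurations share one special set. -/
lemma one_special {M N : Matroid α} {H K : Set α} (hdisj : Disjoint H K)
    (hQ : TwoSpecial M H K) (hN : N.IsMinor M) (hH : N.eRank < H.encard)
    (hK : N.eRank < K.encard) : ∃ S : Set α, ∀ A a b c d, Cfg N A a b c d →
      ∃ p q, (p = a ∨ p = b ∨ p = c ∨ p = d) ∧ (q = a ∨ q = b ∨ q = c ∨ q = d) ∧
        N.Indep (A ∪ {p, q}) ∧ A ∪ {p, q} = S := by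
  obtain ⟨I, hI, hgen⟩ := special_data hQ hN
  have hbig : ∀ T, N.Indep T → T ∪ I = H ∨ T ∪ I = K → I.Nonempty := by
    intro T hT h
    rw [nonempty_iff_ne_empty]
    intro hI0
    have hle := hT.encard_le_eRank
    rw [hI0, union_empty] at h
    rcases h with h | h
    · rw [h] at hle; exact absurd hle (not_le.mpr hH)
    · rw [h] at hle; exact absurd hle (not_le.mpr hK)
  by_cases hex : ∃ A a b c d, Cfg N A a b c d
  swap
  · exact ⟨∅, fun A a b c d h => absurd ⟨A, a, b, c, d, h⟩ hex⟩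
  obtain ⟨A0, a0, b0, c0, d0, hc0⟩ := hex
  obtain ⟨p0, q0, -, -, h01, h02⟩ := hgen _ _ _ _ _ hc0
  obtain ⟨x0, hx0⟩ := hbig _ h01 h02
  -- one of the two special sets contains `I`
  obtain ⟨X, hX⟩ : ∃ X : Set α, ∀ T : Set α, (T ∪ I = H ∨ T ∪ I = K) → T ∪ I = X := by
    have hd' := Set.disjoint_left.mp hdisj
    rcases h02 with h | h
    · refine ⟨H, fun T hT => hT.elim id fun h' => ?_⟩
      have h1 : x0 ∈ H := h ▸ Or.inr hx0
      have h2 : x0 ∈ K := h' ▸ Or.inr hx0
      exact absurd h2 (hd' h1)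
    · refine ⟨K, fun T hT => hT.elim (fun h' => ?_) id⟩
      have h1 : x0 ∈ K := h ▸ Or.inr hx0
      have h2 : x0 ∈ H := h' ▸ Or.inr hx0
      exact absurd h1 (hd' h2)
  refine ⟨X \ I, fun A a b c d hc => ?_⟩
  obtain ⟨p, q, hp, hq, h1, h2⟩ := hgen _ _ _ _ _ hc
  refine ⟨p, q, hp, hq, h1, ?_⟩
  rw [← hX _ h2, sdiff_of_disj (hI _ h1)]

/-- configurations of a uniform matroid -/
lemma cfg_uniform [DecidableEq α] {N : Matroid α} {r : ℕ}
    (hI : ∀ I, N.Indep I ↔ (I ⊆ N.E ∧ I.encard ≤ r)) (A : Finset α) (hA : (A : Set α) ⊆ N.E)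
    (hAc : A.card + 2 = r) {a b c d : α} (ha : a ∈ N.E) (hb : b ∈ N.E) (hc : c ∈ N.E)
    (hd : d ∈ N.E) (haA : a ∉ A) (hbA : b ∉ A) (hcA : c ∉ A) (hdA : d ∉ A) (hab : a ≠ b)
    (hac : a ≠ c) (hbc : b ≠ c) (had : a ≠ d) (hbd : b ≠ d) (hcd : c ≠ d) :
    Cfg N A a b c d := by
  have h2 : ∀ x ∈ N.E, ∀ y ∈ N.E, N.Indep ((A : Set α) ∪ {x, y}) := by
    intro x hx y hy
    rw [hI]
    refine ⟨union_subset hA (by rintro z (rfl | rfl) <;> assumption), ?_⟩
    have e : ((A : Set α) ∪ {x, y}) = ((A ∪ {x, y} : Finset α) : Set α) := by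
      push_cast; rfl
    rw [e, encard_coe_eq_coe_finsetCard]
    have h := Finset.card_union_le A {x, y}
    have h' : ({x, y} : Finset α).card ≤ 2 := Finset.card_le_two
    exact_mod_cast (show (A ∪ {x, y}).card ≤ r by omega)
  have h3 : ∀ x y z, x ∉ A → y ∉ A → z ∉ A → x ≠ y → x ≠ z → y ≠ z →
      ¬ N.Indep ((A : Set α) ∪ {x, y, z}) := by
    intro x y z hx hy hz hxy hxz hyz h
    have h4 := ((hI _).mp h).2
    have e : ((A : Set α) ∪ {x, y, z}) = ((A ∪ {x, y, z} : Finset α) : Set α) := by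
      push_cast; rfl
    rw [e, encard_coe_eq_coe_finsetCard] at h4
    have h5 : (A ∪ {x, y, z}).card ≤ r := by exact_mod_cast h4
    have h6 : Disjoint A {x, y, z} := by
      rw [Finset.disjoint_right]
      intro w hw
      simp only [Finset.mem_insert, Finset.mem_singleton] at hw
      rcases hw with rfl | rfl | rfl <;> assumption
    rw [Finset.card_union_of_disjoint h6] at h5
    have h7 : ({x, y, z} : Finset α).card = 3 := Finset.card_eq_three.mpr
      ⟨x, y, z, hxy, hxz, hyz, rfl⟩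
    omega
  exact ⟨hA, ha, hb, hc, hd, haA, hbA, hcA, hdA, hab, hac, hbc, had, hbd, hcd,
    h2 a ha b hb, h2 a ha c hc, h2 b hb c hc, h2 a ha d hd, h2 b hb d hd, h2 c hc d hd,
    h3 a b c haA hbA hcA hab hac hbc, h3 a b d haA hbA hdA hab had hbd⟩

lemma exists_four [DecidableEq α] (X : Finset α) (h : X.card = 4) : ∃ a b c d : α,
    a ∈ X ∧ b ∈ X ∧ c ∈ X ∧ d ∈ X ∧ a ≠ b ∧ a ≠ c ∧ b ≠ c ∧ a ≠ d ∧ b ≠ d ∧ c ≠ d := by
  obtain ⟨a, t, hat, rfl, ht⟩ := Finset.card_eq_succ.mp h
  obtain ⟨b, c, d, hbc, hbd, hcd, rfl⟩ := Finset.card_eq_three.mp ht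
  simp only [Finset.mem_insert, Finset.mem_singleton, not_or] at hat
  exact ⟨a, b, c, d, by simp, by simp, by simp, by simp, hat.1, hat.2.1, hbc, hat.2.2, hbd, hcd⟩

/-- No uniform matroid of rank and corank at least two, except `U_{2,4}`, has all its
configurations sharing one special set. -/
lemma not_one_special {N : Matroid α} {r n : ℕ} (hr : 2 ≤ r) (hrn : r + 2 ≤ n) (hn : 5 ≤ n)
    (hE : N.E.encard = n) (hI : ∀ I, N.Indep I ↔ (I ⊆ N.E ∧ I.encard ≤ r)) (S : Set α)
    (hS : ∀ A a b c d, Cfg N A a b c d →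
      ∃ p q, (p = a ∨ p = b ∨ p = c ∨ p = d) ∧ (q = a ∨ q = b ∨ q = c ∨ q = d) ∧
        N.Indep (A ∪ {p, q}) ∧ A ∪ {p, q} = S) : False := by
  classical
  have hfin : N.E.Finite := by
    rw [← encard_ne_top_iff, hE]; exact ENat.natCast_ne_top n
  set F := hfin.toFinset with hF
  have hFc : F.card = n := by
    have : ((F.card : ℕ) : ℕ∞) = n := by
      rw [← hE, ← hfin.encard_eq_coe_toFinset_card]
    exact_mod_cast this
  have hFm : ∀ x, x ∈ F ↔ x ∈ N.E := fun x => hfin.mem_toFinset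
  -- the configuration of a pair `A ⊆ T`
  have hcfg : ∀ T A : Finset α, T ⊆ F → A ⊆ T → T.card = r + 2 → A.card = r - 2 →
      (A : Set α) ⊆ S ∧ S ⊆ T := by
    intro T A hT hA hTc hAc
    obtain ⟨a, b, c, d, ha, hb, hc, hd, hab, hac, hbc, had, hbd, hcd⟩ :=
      exists_four (T \ A) (by rw [Finset.card_sdiff_of_subset hA]; omega)
    rw [Finset.mem_sdiff] at ha hb hc hd
    have hm : ∀ x, x ∈ T → x ∈ N.E := fun x hx => (hFm x).mp (hT hx)
    obtain ⟨p, q, hp, hq, -, h⟩ := hS A a b c d (cfg_uniform hI A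
      (fun x hx => hm x (hA hx)) (by omega) (hm a ha.1) (hm b hb.1) (hm c hc.1) (hm d hd.1)
      ha.2 hb.2 hc.2 hd.2 hab hac hbc had hbd hcd)
    refine ⟨h ▸ subset_union_left, ?_⟩
    rw [← h]
    rintro x (hx | rfl | hx)
    · exact hA hx
    · rcases hp with rfl | rfl | rfl | rfl
      exacts [ha.1, hb.1, hc.1, hd.1]
    · rw [mem_singleton_iff] at hx
      subst hx
      rcases hq with rfl | rfl | rfl | rfl
      exacts [ha.1, hb.1, hc.1, hd.1]
  by_cases h1 : r + 3 ≤ n
  · -- omit an element of `S`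
    have hne : ∃ s ∈ F, s ∈ S := by
      obtain ⟨T, hT, hTc⟩ := Finset.exists_subset_card_eq (show r + 2 ≤ F.card by omega)
      obtain ⟨A, hA, hAc⟩ := Finset.exists_subset_card_eq (show r - 2 ≤ T.card by omega)
      by_contra hcon
      push Not at hcon
      obtain ⟨a', b', c', d', ha, hb, hc, hd, hab, hac, hbc, had, hbd, hcd⟩ :=
        exists_four (T \ A) (by rw [Finset.card_sdiff_of_subset hA]; omega)
      rw [Finset.mem_sdiff] at ha hb hc hd
      have hm : ∀ x, x ∈ T → x ∈ N.E := fun x hx => (hFm x).mp (hT hx)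
      obtain ⟨p, q, hp, -, -, h⟩ := hS A a' b' c' d' (cfg_uniform hI A
        (fun x hx => hm x (hA hx)) (by omega) (hm a' ha.1) (hm b' hb.1) (hm c' hc.1) (hm d' hd.1)
        ha.2 hb.2 hc.2 hd.2 hab hac hbc had hbd hcd)
      have hpT : p ∈ T := by
        rcases hp with rfl | rfl | rfl | rfl
        exacts [ha.1, hb.1, hc.1, hd.1]
      exact hcon p (hT hpT) (h ▸ Or.inr (Or.inl rfl))
    obtain ⟨s, hs, hsS⟩ := hne
    obtain ⟨T, hT, hTc⟩ := Finset.exists_subset_card_eq
      (show r + 2 ≤ (F.erase s).card by rw [Finset.card_erase_of_mem hs]; omega)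
    obtain ⟨A, hA, hAc⟩ := Finset.exists_subset_card_eq (show r - 2 ≤ T.card by omega)
    have h2 := (hcfg T A (hT.trans (Finset.erase_subset _ _)) hA hTc hAc).2 hsS
    exact Finset.notMem_erase s F (hT h2)
  · -- contract an element outside of `S`
    have hn2 : n = r + 2 := by omega
    obtain ⟨e, he, heS⟩ : ∃ e ∈ F, e ∉ S := by
      by_contra hcon
      push Not at hcon
      obtain ⟨A, hA, hAc⟩ := Finset.exists_subset_card_eq (show r - 2 ≤ F.card by omega)
      obtain ⟨a', b', c', d', ha, hb, hc, hd, hab, hac, hbc, had, hbd, hcd⟩ :=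
        exists_four (F \ A) (by rw [Finset.card_sdiff_of_subset hA]; omega)
      rw [Finset.mem_sdiff] at ha hb hc hd
      obtain ⟨p, q, -, -, hind, h⟩ := hS A a' b' c' d' (cfg_uniform hI A
        (fun x hx => (hFm x).mp (hA hx)) (by omega) ((hFm _).mp ha.1) ((hFm _).mp hb.1)
        ((hFm _).mp hc.1) ((hFm _).mp hd.1) ha.2 hb.2 hc.2 hd.2 hab hac hbc had hbd hcd)
      have h3 := ((hI _).mp hind).2
      rw [h] at h3
      have h4 : N.E ⊆ S := fun x hx => hcon x ((hFm x).mpr hx)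
      have h5 := (encard_le_encard h4).trans h3
      rw [hE] at h5
      have : n ≤ r := by exact_mod_cast h5
      omega
    obtain ⟨A0, hA0, hA0c⟩ := Finset.exists_subset_card_eq
      (show r - 3 ≤ (F.erase e).card by rw [Finset.card_erase_of_mem he]; omega)
    have heA : e ∉ A0 := fun h => Finset.notMem_erase e F (hA0 h)
    have h2 := (hcfg F (insert e A0) (Finset.Subset.refl _)
      (Finset.insert_subset he (hA0.trans (Finset.erase_subset _ _))) (by omega)
      (by rw [Finset.card_insert_of_notMem heA]; omega)).1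
    exact heS (h2 (by simp))

/-- A uniform matroid of rank at least four and corank at least two has a configuration which
uses none of two given sets. -/
lemma not_two_special {N : Matroid α} {r n : ℕ} (hr : 4 ≤ r) (hrn : r + 2 ≤ n)
    (hE : N.E.encard = n) (hI : ∀ I, N.Indep I ↔ (I ⊆ N.E ∧ I.encard ≤ r)) (S S' : Set α)
    (hS : ∀ A a b c d, Cfg N A a b c d →
      ∃ p q, (p = a ∨ p = b ∨ p = c ∨ p = d) ∧ (q = a ∨ q = b ∨ q = c ∨ q = d) ∧
        N.Indep (A ∪ {p, q}) ∧ (A ∪ {p, q} = S ∨ A ∪ {p, q} = S')) : False := by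
  classical
  have hfin : N.E.Finite := by
    rw [← encard_ne_top_iff, hE]; exact ENat.natCast_ne_top n
  set F := hfin.toFinset with hF
  have hFc : F.card = n := by
    have : ((F.card : ℕ) : ℕ∞) = n := by
      rw [← hE, ← hfin.encard_eq_coe_toFinset_card]
    exact_mod_cast this
  have hFm : ∀ x, x ∈ F ↔ x ∈ N.E := fun x => hfin.mem_toFinset
  have hFne : F.Nonempty := Finset.card_pos.mp (by omega)
  -- an element which excludes the set `X`
  have hx : ∀ X : Set α, ∃ e ∈ F, ∀ T : Set α, N.Indep T → e ∈ T → T ≠ X := by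
    intro X
    by_cases h : ∃ e ∈ F, e ∉ X
    · obtain ⟨e, he, heX⟩ := h
      exact ⟨e, he, fun T _ heT hT => heX (hT ▸ heT)⟩
    · push Not at h
      obtain ⟨e, he⟩ := hFne
      refine ⟨e, he, fun T hTi _ hT => ?_⟩
      have h3 := ((hI _).mp hTi).2
      rw [hT] at h3
      have h4 : N.E ⊆ X := fun x hx => h x ((hFm x).mpr hx)
      have h5 := (encard_le_encard h4).trans h3
      rw [hE] at h5
      have : n ≤ r := by exact_mod_cast h5
      omega
  obtain ⟨e, he, heS⟩ := hx S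
  obtain ⟨e', he', heS'⟩ := hx S'
  have hpc : ({e, e'} : Finset α).card ≤ r - 2 := Finset.card_le_two.trans (by omega)
  obtain ⟨A, hA1, hA2, hAc⟩ := Finset.exists_subsuperset_card_eq
    (show ({e, e'} : Finset α) ⊆ F by
      intro x hx
      simp only [Finset.mem_insert, Finset.mem_singleton] at hx
      rcases hx with rfl | rfl <;> assumption) hpc (show r - 2 ≤ F.card by omega)
  obtain ⟨X, hX, hXc⟩ := Finset.exists_subset_card_eq
    (show 4 ≤ (F \ A).card by rw [Finset.card_sdiff_of_subset hA2]; omega)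
  obtain ⟨a, b, c, d, ha, hb, hc, hd, hab, hac, hbc, had, hbd, hcd⟩ := exists_four X hXc
  have ha := Finset.mem_sdiff.mp (hX ha)
  have hb := Finset.mem_sdiff.mp (hX hb)
  have hc := Finset.mem_sdiff.mp (hX hc)
  have hd := Finset.mem_sdiff.mp (hX hd)
  obtain ⟨p, q, -, -, hind, h⟩ := hS A a b c d (cfg_uniform hI A
    (fun x hx => (hFm x).mp (hA2 hx)) (by omega) ((hFm _).mp ha.1) ((hFm _).mp hb.1)
    ((hFm _).mp hc.1) ((hFm _).mp hd.1) ha.2 hb.2 hc.2 hd.2 hab hac hbc had hbd hcd)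
  have m1 : e ∈ (A : Set α) ∪ {p, q} := Or.inl (hA1 (by simp))
  have m2 : e' ∈ (A : Set α) ∪ {p, q} := Or.inl (hA1 (by simp))
  rcases h with h | h
  · exact heS _ hind m1 h
  · exact heS' _ hind m2 h

/-- A configuration is a minor `U_{2,4}`. -/
lemma minor_of_cfg {M : Matroid α} {A : Set α} {a b c d : α} (h : Cfg M A a b c d) :
    ∃ U : Matroid α, U.IsMinor M ∧ U.E.encard = 4 ∧
      ∀ I, U.Indep I ↔ (I ⊆ U.E ∧ I.encard ≤ 2) := by
  classical
  obtain ⟨hA, ha, hb, hc, hd, haA, hbA, hcA, hdA, hab, hac, hbc, had, hbd, hcd, i1, i2, i3, i4,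
    i5, i6, j1, j2⟩ := h
  have hAi : M.Indep A := i1.subset subset_union_left
  set N := M.contract A with hN
  have hcon : ∀ J, N.Indep J ↔ Disjoint J A ∧ M.Indep (J ∪ A) := fun J => hAi.contract_indep_iff
  have mk : ∀ x y, x ∉ A → y ∉ A → M.Indep (A ∪ {x, y}) → N.Indep {x, y} := by
    intro x y hx hy hxy
    rw [hcon]
    refine ⟨?_, by rw [union_comm]; exact hxy⟩
    rw [Set.disjoint_left]
    rintro z (rfl | hz)
    · exact hx
    · rw [mem_singleton_iff] at hz; rw [hz]; exact hy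
  have kab := mk a b haA hbA i1
  have kac := mk a c haA hcA i2
  have kbc := mk b c hbA hcA i3
  have kad := mk a d haA hdA i4
  have kbd := mk b d hbA hdA i5
  have kcd := mk c d hcA hdA i6
  have P : ∀ x y, (x = a ∨ x = b ∨ x = c ∨ x = d) → (y = a ∨ y = b ∨ y = c ∨ y = d) →
      N.Indep {x, y} := by
    rintro x y (rfl | rfl | rfl | rfl) (rfl | rfl | rfl | rfl) <;>
    first
    | assumption
    | (rw [pair_comm]; assumption)
    | (rw [pair_eq_singleton]
       first
       | exact kab.subset (Set.singleton_subset_iff.mpr (Or.inl rfl))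
       | exact kab.subset (Set.singleton_subset_iff.mpr (Or.inr rfl))
       | exact kcd.subset (Set.singleton_subset_iff.mpr (Or.inl rfl))
       | exact kcd.subset (Set.singleton_subset_iff.mpr (Or.inr rfl)))
  have n1 : ¬ N.Indep {a, b, c} := fun h => j1 (by rw [union_comm]; exact ((hcon _).mp h).2)
  have n2 : ¬ N.Indep {a, b, d} := fun h => j2 (by rw [union_comm]; exact ((hcon _).mp h).2)
  have hRE : ({a, b, c, d} : Set α) ⊆ N.E := by
    rintro x (rfl | rfl | rfl | hx)
    · exact ⟨ha, haA⟩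
    · exact ⟨hb, hbA⟩
    · exact ⟨hc, hcA⟩
    · rw [mem_singleton_iff] at hx; rw [hx]; exact ⟨hd, hdA⟩
  refine ⟨N.restrict {a, b, c, d}, ?_, ?_, ?_⟩
  · exact ⟨A, N.E \ {a, b, c, d}, (Matroid.delete_compl hRE).symm⟩
  · rw [Matroid.restrict_ground_eq]
    have e : ({a, b, c, d} : Set α) = (({a, b, c, d} : Finset α) : Set α) := by push_cast; rfl
    rw [e, encard_coe_eq_coe_finsetCard, Finset.card_insert_of_notMem,
      Finset.card_eq_three.mpr ⟨b, c, d, hbc, hbd, hcd, rfl⟩]
    · rfl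
    · simp [hab, hac, had]
  · intro I
    rw [Matroid.restrict_indep_iff, Matroid.restrict_ground_eq]
    constructor
    · rintro ⟨hI, hIR⟩
      refine ⟨hIR, ?_⟩
      by_contra hlt
      rw [not_le] at hlt
      have h2 : ({a, b} : Set α).encard < I.encard := by rw [encard_pair hab]; exact hlt
      obtain ⟨e, he, heI⟩ := kab.augment hI h2
      have heR := hIR he.1
      have he2 := he.2
      rcases heR with rfl | rfl | rfl | heR
      · exact he2 (by simp)
      · exact he2 (by simp)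
      · apply n1
        convert heI using 1
        ext x; simp only [mem_insert_iff, mem_singleton_iff]; tauto
      · rw [mem_singleton_iff] at heR
        subst heR
        apply n2
        convert heI using 1
        ext x; simp only [mem_insert_iff, mem_singleton_iff]; tauto
    · rintro ⟨hIR, hI⟩
      refine ⟨?_, hIR⟩
      have hR : ∀ x ∈ I, x = a ∨ x = b ∨ x = c ∨ x = d := fun x hx => hIR hx
      by_cases h0 : ∃ x, x ∈ I
      swap
      · have : I ⊆ {a, b} := fun x hx => absurd ⟨x, hx⟩ h0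
        exact kab.subset this
      obtain ⟨x, hx⟩ := h0
      by_cases h1 : ∃ y ∈ I, y ≠ x
      swap
      · push Not at h1
        exact (P x x (hR x hx) (hR x hx)).subset fun y hy => Or.inl (h1 y hy)
      obtain ⟨y, hy, hyx⟩ := h1
      refine (P x y (hR x hx) (hR y hy)).subset fun z hz => ?_
      by_contra hcon2
      simp only [mem_insert_iff, mem_singleton_iff, not_or] at hcon2
      have h3 : ({x, y, z} : Set α) ⊆ I := by
        rintro w (rfl | rfl | hw)
        · exact hx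
        · exact hy
        · rw [mem_singleton_iff] at hw; rw [hw]; exact hz
      have h4 : ({x, y, z} : Set α).encard = 3 :=
        encard_eq_three.mpr ⟨x, y, z, hyx.symm, fun h => hcon2.1 h.symm,
          fun h => hcon2.2 h.symm, rfl⟩
      have h5 := (encard_le_encard h3).trans hI
      rw [h4] at h5
      exact absurd h5 (by decide)

end Pool.Agent.Y458.AC
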